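import Pool.Agent.H7.LP.Targets

/-!
# Row OCI of lpg_modules: open subgroups have countably many right cosets
-/

set_option autoImplicit false

namespace Pool.Agent.H12.LPG

open Pool.Agent.H7.LP

theorem pf_OCI : T_OCI := by
  intro G _ _ _ _ H hH
  obtain ⟨g, hg⟩ := TopologicalSpace.exists_dense_seq G
  refine ⟨g, fun a => ?_⟩
  have ho : IsOpen {b : G | a * b⁻¹ ∈ H} :=
    hH.preimage (continuous_const.mul continuous_inv)
  have hne : {b : G | a * b⁻¹ ∈ H}.Nonempty := ⟨a, by simp [H.one_mem]⟩
  exact hg.exists_mem_open ho hne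

end Pool.Agent.H12.LPG
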